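import Pool.Agent.Helper90.MZ.StmtsT

set_option autoImplicit false

namespace Pool.Agent.Helper90.MZ

open Pool.Agent.Helper90.TS
open FirstOrder Language

theorem otb_eq {L : FirstOrder.Language.{0, 0}} {C : Type} [L.Structure C] {n : ℕ} (a : C)
    (i : Fin n) : (Set.univ : Set C).Definable L {x : Fin n → C | x i = a} := by
  refine ⟨Term.equal (Term.var i) (Constants.term (L.con (⟨a, trivial⟩ : (Set.univ : Set C)))), ?_⟩
  ext x
  simp

theorem otb_singleton {L : FirstOrder.Language.{0, 0}} {C : Type} [L.Structure C] {n : ℕ}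
    (a : Fin n → C) : (Set.univ : Set C).Definable L ({a} : Set (Fin n → C)) := by
  have h := Set.definable_iInter_of_finite (A := (Set.univ : Set C)) (L := L)
    (f := fun i : Fin n => {x : Fin n → C | x i = a i}) (fun i => otb_eq (a i) i)
  convert h using 1
  ext x
  simp [funext_iff]

/-- restriction -/
def otb_res {C : Type} {k : ℕ → ℕ} (hk : Monotone k) {n m : ℕ} (h : n ≤ m)
    (x : Fin (k m) → C) : Fin (k n) → C := x ∘ Fin.castLE (hk h)

theorem otb_res_res {C : Type} {k : ℕ → ℕ} (hk : Monotone k) {n m l : ℕ} (h : n ≤ m) (h' : m ≤ l)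
    (x : Fin (k l) → C) : otb_res hk h (otb_res hk h' x) = otb_res hk (h.trans h') x := rfl

theorem otb_coh {C : Type} {k : ℕ → ℕ} (hk : Monotone k) (θ : (n : ℕ) → Set (Fin (k n) → C))
    (hc : ∀ n, ∀ x ∈ θ (n + 1), x ∘ Fin.castLE (hk (Nat.le_succ n)) ∈ θ n) {n m : ℕ} (h : n ≤ m) :
    ∀ x ∈ θ m, otb_res hk h x ∈ θ n := by
  induction m, h using Nat.le_induction with
  | base => exact fun x hx => hx
  | succ m h ih => exact fun x hx => ih _ (hc m x hx)

theorem st_OTB (hCSAT : ST_CSAT) : ST_OTB := by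
  intro L C _ _ S hM k θ hk hθ hc
  -- the projections
  obtain ⟨R, hR⟩ : ∃ R : (n m : ℕ) → (h : n ≤ m) → Set (Fin (k n) → C),
    ∀ n m h, R n m h = (fun x : Fin (k m) → C => otb_res hk h x) '' θ m := ⟨_, fun _ _ _ => rfl⟩
  have hRdef : ∀ n m h, (Set.univ : Set C).Definable L (R n m h) := by
    intro n m h
    rw [hR]
    exact (hθ m).1.image_comp (Fin.castLE (hk h))
  have hRsub : ∀ n m h, R n m h ⊆ θ n := by
    intro n m h y hy
    rw [hR] at hy
    obtain ⟨x, hx, rfl⟩ := hy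
    exact otb_coh hk θ hc h x hx
  have hRmono : ∀ n m l (h : n ≤ m) (h' : m ≤ l), R n l (h.trans h') ⊆ R n m h := by
    intro n m l h h' y hy
    rw [hR] at hy ⊢
    obtain ⟨x, hx, rfl⟩ := hy
    exact ⟨otb_res hk h' x, otb_coh hk θ hc h' x hx, rfl⟩
  -- the first step
  have h0 : ∃ y : Fin (k 0) → C, ∀ m h, y ∈ R 0 m h := by
    obtain ⟨y, hy⟩ := hCSAT L C S hM (Fin (k 0)) (fun m => R 0 m (Nat.zero_le m))
      (fun m => hRdef _ _ _) (by
        obtain ⟨N, hN⟩ := (hθ 0).2.1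
        exact ⟨N, fun x hx => hN x (hRsub _ _ _ hx)⟩) (by
        intro l
        obtain ⟨x, hx⟩ := (hθ l).2.2
        refine ⟨otb_res hk (Nat.zero_le l) x, fun i hi => ?_⟩
        have h1 : otb_res hk (Nat.zero_le l) x ∈ R 0 l (Nat.zero_le l) := by
          rw [hR]
          exact ⟨x, hx, rfl⟩
        exact hRmono 0 i l (Nat.zero_le i) hi.le h1)
    exact ⟨y, fun m _ => hy m⟩
  have hstep : ∀ (n : ℕ) (y : Fin (k n) → C), (∀ m h, y ∈ R n m h) →
      ∃ y' : Fin (k (n + 1)) → C, (∀ m h, y' ∈ R (n + 1) m h) ∧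
        otb_res hk (Nat.le_succ n) y' = y := by
    intro n y hy
    obtain ⟨y', hy'⟩ := hCSAT L C S hM (Fin (k (n + 1)))
      (fun j => R (n + 1) (n + 1 + j) (Nat.le_add_right _ _) ∩
        (fun x : Fin (k (n + 1)) → C => otb_res hk (Nat.le_succ n) x) ⁻¹' {y})
      (fun j => (hRdef _ _ _).inter
        ((otb_singleton y).preimage_comp (Fin.castLE (hk (Nat.le_succ n))))) (by
        obtain ⟨N, hN⟩ := (hθ (n + 1)).2.1
        exact ⟨N, fun x hx => hN x (hRsub _ _ _ hx.1)⟩) (by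
        intro l
        have h1 := hy (n + 1 + l) (by omega)
        rw [hR] at h1
        obtain ⟨x, hx, hxy⟩ := h1
        refine ⟨otb_res hk (show n + 1 ≤ n + 1 + l by omega) x, fun i hi => ⟨?_, ?_⟩⟩
        · have h2 : otb_res hk (show n + 1 ≤ n + 1 + l by omega) x ∈
              R (n + 1) (n + 1 + l) (by omega) := by
            rw [hR]
            exact ⟨x, hx, rfl⟩
          exact hRmono (n + 1) (n + 1 + i) (n + 1 + l) (by omega) (by omega) h2
        · exact hxy)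
    refine ⟨y', fun m h => ?_, (hy' 0).2⟩
    obtain ⟨j, rfl⟩ := Nat.exists_eq_add_of_le h
    exact (hy' j).1
  obtain ⟨y0, hy0⟩ := h0
  choose f hf1 hf2 using hstep
  obtain ⟨Y, hY⟩ : ∃ Y : (n : ℕ) → {y : Fin (k n) → C // ∀ m h, y ∈ R n m h},
      ∀ n, otb_res hk (Nat.le_succ n) (Y (n + 1)).1 = (Y n).1 :=
    ⟨fun n => Nat.rec ⟨y0, hy0⟩ (fun n y => ⟨f n y.1 y.2, hf1 n y.1 y.2⟩) n,
      fun n => hf2 n _ _⟩
  have hYY : ∀ {n m : ℕ} (h : n ≤ m), otb_res hk h (Y m).1 = (Y n).1 := by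
    intro n m h
    induction m, h using Nat.le_induction with
    | base => rfl
    | succ m h ih =>
      rw [← ih, ← hY m]
      rfl
  classical
  refine ⟨fun i => if h : ∃ n, i < k n then (Y (Nat.find h)).1 ⟨i, Nat.find_spec h⟩ else
    Classical.arbitrary C, fun n => ?_⟩
  have key : (fun i : Fin (k n) => if h : ∃ n, (i : ℕ) < k n then
      (Y (Nat.find h)).1 ⟨i, Nat.find_spec h⟩ else Classical.arbitrary C) = (Y n).1 := by
    funext i
    have h : ∃ n, (i : ℕ) < k n := ⟨n, i.2⟩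
    rw [dif_pos h]
    have h1 : Nat.find h ≤ n := Nat.find_min' h i.2
    rw [← hYY h1]
    rfl
  rw [key]
  exact hRsub n n le_rfl ((Y n).2 n le_rfl)

end Pool.Agent.Helper90.MZ
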